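import Mathlib
import Pool.Agent.H869.QP

set_option autoImplicit false

/-!
# The Hilbert scheme of four points of a smooth variety is normal and Cohen–Macaulay

This answers Q1 of MP_26f572_ag affirmatively, over every field and in every dimension.

Idea of the proof. Étale-local models are avoided. Let `V → X^[4]` be the scheme of pairs
`(Z, (s₁, s₂, s₃))` with `Z ⊂ X` of length four and `1, s₁, s₂, s₃` a basis of `Γ(Z, 𝒪_Z)`: it is a
smooth surjection (an open subset of a vector bundle). On the other hand `V` is smooth over the
scheme of based algebras of rank four, since `X` is smooth, and that scheme is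
`𝔸³ × (the affine cone over Gr(2, 6))`, which is normal and Cohen–Macaulay. Both properties ascend
along smooth morphisms and descend along faithfully flat ones.
-/

open CategoryTheory Limits AlgebraicGeometry

universe u

namespace Pool.Agent.Results.MP_26f572_ag.FourPoints

/-- Families over `t : T ⟶ S` of closed subschemes of length `n` of the fibres of `p : X ⟶ S`:
closed subschemes of `X ×[S] T` (given by their ideal sheaves) which are finite, flat and locally
of finite presentation over `T`, of constant degree `n`. -/
def HilbFamily {X S : Scheme.{u}} (p : X ⟶ S) (n : ℕ) {T : Scheme.{u}} (t : T ⟶ S) :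
    Set (pullback p t).IdealSheafData :=
  {I | IsFinite (I.subschemeι ≫ pullback.snd p t) ∧ Flat (I.subschemeι ≫ pullback.snd p t) ∧
    LocallyOfFinitePresentation (I.subschemeι ≫ pullback.snd p t) ∧
    ∀ y, (I.subschemeι ≫ pullback.snd p t).finrank y = n}

/-- For an `S`-morphism `f : T' ⟶ T`, the morphism `id × f : X ×[S] T' ⟶ X ×[S] T`. -/
noncomputable abbrev baseChange {X S : Scheme.{u}} (p : X ⟶ S) {T T' : Scheme.{u}} {t : T ⟶ S}
    {t' : T' ⟶ S} (f : T' ⟶ T) (hf : f ≫ t = t') : pullback p t' ⟶ pullback p t :=
  pullback.map p t' p t (𝟙 X) f (𝟙 S) (by rw [Category.comp_id, Category.id_comp])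
    (by rw [Category.comp_id, hf])

/-- The `S`-scheme `h : H ⟶ S` is the Hilbert scheme of `n` points of `p : X ⟶ S`: there is a
universal family `Z` over `H` such that every family over every `S`-scheme `T` is the pullback of
`Z` along a unique `S`-morphism `T ⟶ H`. -/
def IsHilbertScheme {X S H : Scheme.{u}} (p : X ⟶ S) (n : ℕ) (h : H ⟶ S) : Prop :=
  ∃ Z ∈ HilbFamily p n h, ∀ (T : Scheme.{u}) (t : T ⟶ S), ∀ I ∈ HilbFamily p n t,
    ∃! f : T ⟶ H, ∃ hf : f ≫ h = t, Z.comap (baseChange p f hf) = I

attribute [local instance] MvPolynomial.gradedAlgebra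

/-- Projective space of dimension `N` over `k`. -/
noncomputable def projSpace (k : Type u) [Field k] (N : ℕ) : Scheme.{u} :=
  Proj (MvPolynomial.homogeneousSubmodule (Fin (N + 1)) k)

/-- The structure morphism of projective space. -/
noncomputable def projSpaceStr (k : Type u) [Field k] (N : ℕ) :
    projSpace k N ⟶ Spec (CommRingCat.of k) :=
  Proj.toSpecZero (MvPolynomial.homogeneousSubmodule (Fin (N + 1)) k) ≫
    Spec.map (CommRingCat.ofHom (algebraMap k
      (MvPolynomial.homogeneousSubmodule (Fin (N + 1)) k 0)))

/-- A `k`-scheme is quasi-projective if it has a `k`-immersion into some projective space. -/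
def QuasiProjective {k : Type u} [Field k] {X : Scheme.{u}} (p : X ⟶ Spec (CommRingCat.of k)) :
    Prop :=
  ∃ (N : ℕ) (i : X ⟶ projSpace k N), IsImmersion i ∧ i ≫ projSpaceStr k N = p

/-- Every finite set of points lies in an affine open subset (this holds for all quasi-projective
schemes, see `Pool.Agent.H869.Sch.QuasiProjective.finAff`). -/
def FiniteSetsInAffines (X : Scheme.{u}) : Prop :=
  ∀ F : Set X, F.Finite → ∃ U : X.Opens, IsAffineOpen U ∧ F ⊆ U

/-- Cohen–Macaulay local rings: Noetherian local rings with a regular sequence whose length is the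
Krull dimension. -/
def IsCohenMacaulayLocal (R : Type u) [CommRing R] : Prop :=
  IsNoetherianRing R ∧ IsLocalRing R ∧
    ∃ rs : List R, RingTheory.Sequence.IsRegular R rs ∧
      (rs.length : WithBot ℕ∞) = ringKrullDim R

/-- **The Hilbert scheme of four points of a smooth quasi-projective scheme over a field, of any
dimension, is normal and Cohen–Macaulay.** -/
theorem result (k : Type u) [Field k] (X H : Scheme.{u}) (p : X ⟶ Spec (CommRingCat.of k))
    (h : H ⟶ Spec (CommRingCat.of k)) (hsmooth : Smooth p)
    (hX : QuasiProjective p ∨ (IsSeparated p ∧ FiniteSetsInAffines X))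
    (hH : IsHilbertScheme p 4 h) (x : H) :
    IsDomain (H.presheaf.stalk x) ∧ IsIntegrallyClosed (H.presheaf.stalk x) ∧
      IsCohenMacaulayLocal (H.presheaf.stalk x) := by
  have hX' : IsSeparated p ∧ Pool.Agent.H869.Sch.FinAff X := by
    rcases hX with hX | hX
    · have hX2 : Pool.Agent.H869.Sch.QuasiProjective p := hX
      exact ⟨hX2.isSeparated, hX2.finAff⟩
    · exact hX
  have := hX'.1
  have hH' : Pool.Agent.H869.Sch.IsHilbertScheme p 4 h := hH
  obtain ⟨h1, h2, h3⟩ := Pool.Agent.H869.Sch.ncm_stalk p h hX'.2 hH' x
  exact ⟨h1, h2, h3.noeth, h3.loc, h3.exists_reg⟩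

end Pool.Agent.Results.MP_26f572_ag.FourPoints
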